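import Pool.Agent.X243.EqTest.Petersen2

/-!
# Equality testing and Hamiltonicity: the Petersen graph has `f = k / 2`

This answers Q1 of `MP_76d60e_lc` in the negative.
-/

open Finset Filter Topology
open Pool.Agent.X243.EqTest

namespace Pool.Agent.Results.MP_76d60e_lc.PetersenNotHamiltonian

section general

variable {V : Type*} [Fintype V] [DecidableEq V] {G : SimpleGraph V}

/-- number of darts of a list that go from `u` to `v` -/
def cnt (l : List G.Dart) (u v : V) : ℕ := l.countP (fun d => d.fst = u ∧ d.snd = v)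

lemma cnt_total (l : List G.Dart) : ∑ u, ∑ v, cnt l u v = l.length := by
  induction l with
  | nil => simp [cnt]
  | cons d l ih =>
    have h1 : ∀ u v, cnt (d :: l) u v = cnt l u v + if d.fst = u ∧ d.snd = v then 1 else 0 := by
      intro u v
      unfold cnt
      rw [List.countP_cons]
      by_cases h : d.fst = u ∧ d.snd = v
      · rw [if_pos (by simpa using h), if_pos h]
      · rw [if_neg (by simpa using h), if_neg h]
    rw [sum_congr rfl (fun u _ => sum_congr rfl (fun v _ => h1 u v))]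
    simp only [sum_add_distrib, List.length_cons]
    rw [ih]
    congr 1
    rw [sum_eq_single d.fst, sum_eq_single d.snd]
    · rw [if_pos ⟨rfl, rfl⟩]
    · intro v _ hv
      rw [if_neg (fun h => hv h.2.symm)]
    · intro h
      exact absurd (mem_univ _) h
    · intro u _ hu
      apply sum_eq_zero
      intro v _
      rw [if_neg (fun h => hu h.1.symm)]
    · intro h
      exact absurd (mem_univ _) h

lemma cnt_pos {l : List G.Dart} {A B : Finset V} {d : G.Dart} (hd : d ∈ l)
    (h1 : d.fst ∈ A) (h2 : d.snd ∈ B) : 1 ≤ ∑ u ∈ A, ∑ v ∈ B, cnt l u v := by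
  have h3 : 1 ≤ cnt l d.fst d.snd := by
    unfold cnt
    rw [Nat.one_le_iff_ne_zero, Ne, List.countP_eq_zero]
    push Not
    exact ⟨d, hd, by simp⟩
  calc 1 ≤ cnt l d.fst d.snd := h3
    _ ≤ ∑ v ∈ B, cnt l d.fst v :=
        single_le_sum (f := fun v => cnt l d.fst v) (fun _ _ => Nat.zero_le _) h2
    _ ≤ ∑ u ∈ A, ∑ v ∈ B, cnt l u v :=
        single_le_sum (f := fun u => ∑ v ∈ B, cnt l u v) (fun _ _ => Nat.zero_le _) h1

lemma closed_cross {a b : V} (p : G.Walk a a) (hb : b ∈ p.support)
    (S : Set V) (ha : a ∈ S) (hb' : b ∉ S) :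
    (∃ d ∈ p.darts, d.fst ∈ S ∧ d.snd ∉ S) ∧ ∃ d ∈ p.darts, d.fst ∉ S ∧ d.snd ∈ S := by
  constructor
  · obtain ⟨d, hd, h⟩ := (p.takeUntil b hb).exists_boundary_dart S ha hb'
    exact ⟨d, p.darts_takeUntil_subset_darts hb hd, h⟩
  · obtain ⟨d, hd, h1, h2⟩ := (p.dropUntil b hb).exists_boundary_dart Sᶜ hb' (by simpa using ha)
    exact ⟨d, p.darts_dropUntil_subset_darts hb hd, h1, by simpa using h2⟩

end general

lemma not_hamiltonian : ¬ petersen.IsHamiltonian := by
  intro h
  obtain ⟨a, p, hp⟩ := h (by simp)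
  let μ : Fin 10 → Fin 10 → ℕ := fun u v => cnt p.darts u v + cnt p.darts v u
  have h22 := total_ge μ (fun u v => Nat.add_comm _ _) ?_ ?_
  · have h1 : ∑ u, ∑ v, μ u v = 2 * p.length := by
      simp only [μ, sum_add_distrib]
      rw [cnt_total, sum_comm, cnt_total, p.length_darts]
      ring
    rw [h1, hp.length_eq] at h22
    simp at h22
  · intro u v huv
    have h1 : ∀ u v, ¬ petersen.Adj u v → cnt p.darts u v = 0 := by
      intro u v huv
      unfold cnt
      rw [List.countP_eq_zero]
      intro d _ hd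
      simp only [decide_eq_true_eq] at hd
      apply huv
      rw [← hd.1, ← hd.2]
      exact d.adj
    simp only [μ]
    rw [h1 u v huv, h1 v u (fun h2 => huv h2.symm)]
  · intro S hS hS'
    have hcross : (∃ d ∈ p.darts, d.fst ∈ S ∧ d.snd ∈ Sᶜ) ∧
        ∃ d ∈ p.darts, d.fst ∈ Sᶜ ∧ d.snd ∈ S := by
      by_cases ha : a ∈ S
      · obtain ⟨b, hb⟩ : ∃ b, b ∉ S := by
          by_contra hcon
          push Not at hcon
          exact hS' (eq_univ_iff_forall.2 hcon)
        have h1 := closed_cross p (hp.mem_support b) (S : Set (Fin 10)) (mem_coe.2 ha)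
          (fun h => hb (mem_coe.1 h))
        simp only [mem_compl]
        exact h1
      · obtain ⟨b, hb⟩ := hS
        have h1 := closed_cross p (hp.mem_support b) ((S : Set (Fin 10))ᶜ)
          (fun h => ha (mem_coe.1 h)) (fun h => h (mem_coe.2 hb))
        simp only [mem_compl]
        obtain ⟨⟨d, hd, h2, h3⟩, ⟨d', hd', h2', h3'⟩⟩ := h1
        exact ⟨⟨d', hd', by simpa using h2', h3'⟩, ⟨d, hd, h2, by simpa using h3⟩⟩
    obtain ⟨⟨d, hd, h1, h2⟩, ⟨d', hd', h1', h2'⟩⟩ := hcross
    have h3 := cnt_pos hd h1 h2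
    have h4 := cnt_pos hd' h1' h2'
    simp only [μ, sum_add_distrib]
    rw [sum_comm] at h4
    omega

/-- The Petersen graph `P` is connected and not Hamiltonian, and `f(P) = k / 2` (`k = 10`). -/
theorem result : petersen.Connected ∧ ¬ petersen.IsHamiltonian ∧
    Tendsto (fun n : ℕ => (eqCost petersen n : ℝ) / n) atTop
      (𝓝 ((Fintype.card (Fin 10) : ℝ) / 2)) := by
  refine ⟨petersen_conn, not_hamiltonian, ?_⟩
  have h : ((Fintype.card (Fin 10) : ℝ) / 2) = 5 := by
    simp
    norm_num
  rw [h]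
  exact petersen_limit

end Pool.Agent.Results.MP_76d60e_lc.PetersenNotHamiltonian
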